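import Pool.Agent.Helper16.AZ.Stmts

/-!
PTB: the structured part (MP_7a8f48_an).
-/

namespace Pool.Agent.Helper53.AZ

open Finset Filter MeasureTheory Topology
open scoped ComplexConjugate InnerProductSpace
open Pool.Agent.Helper16.AZ
open Pool.Agent.Helper16.MD (MS PB Am RW Rich)

theorem ptb_shift (F : ℕ → ℂ) (B : ℝ) (hF : ∀ n, ‖F n‖ ≤ B) (N : ℕ) (j : ℕ) :
    ‖∑ m ∈ range N, F (m + j) - ∑ m ∈ range N, F m‖ ≤ 2 * j * B := by
  induction j with
  | zero => simp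
  | succ j ih =>
    have h1 := Finset.sum_range_succ (fun m => F (m + j)) N
    have h2 := Finset.sum_range_succ' (fun m => F (m + j)) N
    have h4 : ∑ m ∈ range N, F (m + 1 + j) = ∑ m ∈ range N, F (m + (j + 1)) :=
      Finset.sum_congr rfl fun m _ => by rw [add_assoc, add_comm 1 j]
    have h3 : ∑ m ∈ range N, F (m + (j + 1)) =
        ∑ m ∈ range N, F (m + j) + F (N + j) - F (0 + j) := by
      rw [← h4, ← h1, h2, add_sub_cancel_right]
    rw [h3]
    calc ‖∑ m ∈ range N, F (m + j) + F (N + j) - F (0 + j) - ∑ m ∈ range N, F m‖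
        = ‖(∑ m ∈ range N, F (m + j) - ∑ m ∈ range N, F m) + (F (N + j) - F (0 + j))‖ := by
          congr 1
          ring
      _ ≤ 2 * j * B + (B + B) :=
        (norm_add_le _ _).trans (add_le_add ih ((norm_sub_le _ _).trans
          (add_le_add (hF _) (hF _))))
      _ = 2 * ((j + 1 : ℕ) : ℝ) * B := by push_cast; ring

theorem ptb_count (F : ℕ → ℂ) (B : ℝ) (hF : ∀ n, ‖F n‖ ≤ B) (N L : ℕ) :
    (L : ℝ) * ‖∑ n ∈ Icc 1 N, F n‖ ≤
      ∑ m ∈ range N, ‖∑ j ∈ range L, F (m + j)‖ + L * (2 * L * B) := by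
  have hB : 0 ≤ B := (norm_nonneg _).trans (hF 0)
  have h1 : ∑ n ∈ Icc 1 N, F n = ∑ m ∈ range N, F (m + 1) := by
    rw [Finset.range_eq_Ico, Finset.sum_Ico_add' F 0 N 1]
    exact Finset.sum_congr (by ext a; simp only [Finset.mem_Icc, Finset.mem_Ico]; omega)
      fun _ _ => rfl
  have h2 : (L : ℂ) * ∑ n ∈ Icc 1 N, F n = ∑ j ∈ range L, (∑ m ∈ range N, F (m + 1) -
      ∑ m ∈ range N, F (m + j)) + ∑ m ∈ range N, ∑ j ∈ range L, F (m + j) := by
    rw [h1, Finset.sum_sub_distrib, Finset.sum_const, Finset.card_range, nsmul_eq_mul,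
      Finset.sum_comm (s := range N) (t := range L)]
    ring
  have h3 : (L : ℝ) * ‖∑ n ∈ Icc 1 N, F n‖ = ‖(L : ℂ) * ∑ n ∈ Icc 1 N, F n‖ := by
    rw [norm_mul, Complex.norm_natCast]
  have h4 : ∀ j ∈ range L, ‖∑ m ∈ range N, F (m + 1) - ∑ m ∈ range N, F (m + j)‖ ≤
      2 * L * B := by
    intro j hj
    rw [Finset.mem_range] at hj
    have h5 := ptb_shift F B hF N 1
    have h6 := ptb_shift F B hF N j
    have h7 : ∑ m ∈ range N, F (m + 1) - ∑ m ∈ range N, F (m + j) =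
        (∑ m ∈ range N, F (m + 1) - ∑ m ∈ range N, F m) -
          (∑ m ∈ range N, F (m + j) - ∑ m ∈ range N, F m) := by ring
    rw [h7]
    refine (norm_sub_le _ _).trans ?_
    have h8 : (j : ℝ) + 1 ≤ L := by exact_mod_cast hj
    push_cast at h5
    nlinarith
  rw [h3, h2]
  refine (norm_add_le _ _).trans ?_
  rw [add_comm]
  refine add_le_add (norm_sum_le _ _) ?_
  refine (norm_sum_le _ _).trans ((Finset.sum_le_sum h4).trans (le_of_eq ?_))
  rw [Finset.sum_const, Finset.card_range, nsmul_eq_mul]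

theorem ptb_mu (n : ℕ) : ‖((ArithmeticFunction.moebius n : ℤ) : ℂ)‖ ≤ 1 := by
  have h := ArithmeticFunction.abs_moebius_le_one (n := n)
  rw [Complex.norm_intCast]
  exact_mod_cast h

theorem ptb_point {r d : ℕ} (β : T r) (φ : T r → Op d) (b : T r → E d) (u : E d) (x : T r)
    (K : ℕ) (z : ℕ → ℂ) (g : ℕ → T r → E d) (hφ : ∀ θ, φ θ ∈ unitary (Op d)) (hu : ‖u‖ ≤ 1)
    (m L : ℕ) :
    ‖∑ j ∈ range L, ((ArithmeticFunction.moebius (m + j) : ℤ) : ℂ) * ff β φ b u x (m + j)‖ ≤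
      ∑ j ∈ range L, ‖Wk β φ j b (x + m • β) - ∑ k ∈ range K, (z k ^ j) • g k (x + m • β)‖ +
      ∑ k ∈ range K, ‖g k (x + m • β)‖ *
        ‖∑ j ∈ range L, ((ArithmeticFunction.moebius (m + j) : ℤ) : ℂ) * (conj (z k)) ^ j‖ := by
  have ha : ‖co β φ m x u‖ ≤ 1 := by rwa [unitary_norm (co_unitary β φ hφ m x)]
  have key : ∀ j, ff β φ b u x (m + j) =
      inner ℂ (Wk β φ j b (x + m • β) - ∑ k ∈ range K, (z k ^ j) • g k (x + m • β))
        (co β φ m x u) +
      ∑ k ∈ range K, (conj (z k)) ^ j * inner ℂ (g k (x + m • β)) (co β φ m x u) := by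
    intro j
    rw [add_comm m j, ff_add, inner_sub_left, sum_inner]
    have h1 : ∑ k ∈ range K, inner ℂ ((z k ^ j) • g k (x + m • β)) (co β φ m x u) =
        ∑ k ∈ range K, (conj (z k)) ^ j * inner ℂ (g k (x + m • β)) (co β φ m x u) :=
      Finset.sum_congr rfl fun k _ => by rw [inner_smul_left, map_pow]
    rw [h1]
    ring
  have h2 : ∑ j ∈ range L, ((ArithmeticFunction.moebius (m + j) : ℤ) : ℂ) *
      ff β φ b u x (m + j) =
      ∑ j ∈ range L, ((ArithmeticFunction.moebius (m + j) : ℤ) : ℂ) *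
        inner ℂ (Wk β φ j b (x + m • β) - ∑ k ∈ range K, (z k ^ j) • g k (x + m • β))
          (co β φ m x u) +
      ∑ k ∈ range K, (∑ j ∈ range L, ((ArithmeticFunction.moebius (m + j) : ℤ) : ℂ) *
        (conj (z k)) ^ j) * inner ℂ (g k (x + m • β)) (co β φ m x u) := by
    have h3 : ∑ k ∈ range K, (∑ j ∈ range L, ((ArithmeticFunction.moebius (m + j) : ℤ) : ℂ) *
        (conj (z k)) ^ j) * inner ℂ (g k (x + m • β)) (co β φ m x u) =
        ∑ j ∈ range L, ((ArithmeticFunction.moebius (m + j) : ℤ) : ℂ) *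
        ∑ k ∈ range K, (conj (z k)) ^ j * inner ℂ (g k (x + m • β)) (co β φ m x u) := by
      simp only [Finset.sum_mul, Finset.mul_sum]
      rw [Finset.sum_comm]
      exact Finset.sum_congr rfl fun j _ => Finset.sum_congr rfl fun k _ => by ring
    rw [h3, ← Finset.sum_add_distrib]
    exact Finset.sum_congr rfl fun j _ => by rw [key j, mul_add]
  rw [h2]
  refine (norm_add_le _ _).trans (add_le_add ?_ ?_)
  · refine (norm_sum_le _ _).trans (Finset.sum_le_sum fun j _ => ?_)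
    rw [norm_mul]
    have h4 := norm_inner_le_norm (𝕜 := ℂ)
      (Wk β φ j b (x + m • β) - ∑ k ∈ range K, (z k ^ j) • g k (x + m • β)) (co β φ m x u)
    have h5 : ‖Wk β φ j b (x + m • β) - ∑ k ∈ range K, (z k ^ j) • g k (x + m • β)‖ *
        ‖co β φ m x u‖ ≤
        ‖Wk β φ j b (x + m • β) - ∑ k ∈ range K, (z k ^ j) • g k (x + m • β)‖ :=
      mul_le_of_le_one_right (norm_nonneg _) ha
    exact (mul_le_of_le_one_left (norm_nonneg _) (ptb_mu _)).trans (h4.trans h5)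
  · refine (norm_sum_le _ _).trans (Finset.sum_le_sum fun k _ => ?_)
    rw [norm_mul, mul_comm]
    refine mul_le_mul_of_nonneg_right ?_ (norm_nonneg _)
    exact (norm_inner_le_norm _ _).trans (mul_le_of_le_one_right (norm_nonneg _) ha)

theorem ptb_cont {r : ℕ} (F : T r → ℝ) (hF : Continuous F) : Integrable F (mm r) :=
  hF.integrable_of_hasCompactSupport (HasCompactSupport.of_compactSpace _)

theorem ptb_mean {r d : ℕ} (R : T r → E d) (hR : Continuous R) (ε ε' : ℝ) (hε : 0 ≤ ε)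
    (hε' : ε < ε') (h : ∫ θ, ‖R θ‖ ^ 2 ∂(mm r) ≤ ε ^ 2) : ∫ θ, ‖R θ‖ ∂(mm r) ≤ ε' := by
  have h0 : 0 < ε' := lt_of_le_of_lt hε hε'
  have h1 : ∫ θ, ‖R θ‖ ∂(mm r) ≤ ∫ θ, (‖R θ‖ ^ 2 + ε' ^ 2) / (2 * ε') ∂(mm r) := by
    refine integral_mono (ptb_cont _ hR.norm) (ptb_cont _ (by fun_prop)) fun θ => ?_
    show ‖R θ‖ ≤ (‖R θ‖ ^ 2 + ε' ^ 2) / (2 * ε')
    rw [le_div_iff₀ (by positivity)]
    nlinarith [sq_nonneg (‖R θ‖ - ε')]
  refine h1.trans ?_
  rw [integral_div, integral_add (ptb_cont _ (by fun_prop)) (ptb_cont _ (by fun_prop)),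
    integral_const, div_le_iff₀ (by positivity)]
  simp only [probReal_univ, smul_eq_mul, one_mul]
  nlinarith

theorem PTB (hmrf : ST_MRF) (heqd : ST_EQD) : ST_PTB := by
  intro r d β φ b u x ε K z g hβ hφ hb hu hε hzg hint δ hδ
  -- bounds
  have hbdd : ∀ G : T r → E d, Continuous G → ∃ B : ℝ, 0 ≤ B ∧ ∀ θ, ‖G θ‖ ≤ B := by
    intro G hG
    obtain ⟨B, hB⟩ := (isCompact_range hG.norm).bddAbove
    exact ⟨B, (norm_nonneg _).trans (hB ⟨0, rfl⟩), fun θ => hB ⟨θ, rfl⟩⟩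
  obtain ⟨Bd, hBd0, hBd⟩ := hbdd b hb
  choose G hG0 hG using fun k => hbdd (g k) (hzg k).2
  obtain ⟨Gs, hGs⟩ : ∃ Gs : ℝ, Gs = ∑ k ∈ range K, G k := ⟨_, rfl⟩
  have hGs0 : 0 ≤ Gs := by rw [hGs]; exact Finset.sum_nonneg fun k _ => hG0 k
  obtain ⟨L₀, hL₀⟩ := hmrf (δ / (4 * (1 + Gs))) (by positivity)
  obtain ⟨L, hL⟩ : ∃ L : ℕ, L = L₀ + 1 := ⟨_, rfl⟩
  obtain ⟨N₀, hN₀⟩ := hL₀ L (by omega)
  -- equidistribution
  obtain ⟨R, hR⟩ : ∃ R : ℕ → T r → E d, R = fun j θ =>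
      Wk β φ j b θ - ∑ k ∈ range K, (z k ^ j) • g k θ := ⟨_, rfl⟩
  have hRc : ∀ j, Continuous (R j) := by
    intro j
    rw [hR]
    refine (Wk_continuous β φ b hφ.1 hb j).sub (continuous_finsetSum _ fun k _ => ?_)
    have h1 := (hzg k).2
    fun_prop
  have hRi : ∀ j, ∫ θ, ‖R j θ‖ ∂(mm r) ≤ ε + δ / 8 := by
    intro j
    refine ptb_mean (R j) (hRc j) ε _ hε (by linarith) ?_
    rw [hR]
    exact hint j
  have hev : ∀ j, ∀ᶠ N : ℕ in atTop, ∑ m ∈ range N, ‖R j (x + m • β)‖ ≤ (ε + δ / 4) * N := by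
    intro j
    have h1 := heqd r β hβ (fun θ => ((‖R j θ‖ : ℝ) : ℂ))
      (Complex.continuous_ofReal.comp (hRc j).norm) x
    rw [Metric.tendsto_nhds] at h1
    filter_upwards [h1 (δ / 8) (by positivity), eventually_ge_atTop 1] with N hN hN1
    have hNpos : (0 : ℝ) < N := by exact_mod_cast hN1
    have hio : ∫ θ, ((‖R j θ‖ : ℝ) : ℂ) ∂(mm r) = ((∫ θ, ‖R j θ‖ ∂(mm r) : ℝ) : ℂ) :=
      integral_ofReal
    rw [hio] at hN
    have h2 : (∑ m ∈ range N, ((‖R j (x + m • β)‖ : ℝ) : ℂ)) / (N : ℂ) =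
        (((∑ m ∈ range N, ‖R j (x + m • β)‖) / N : ℝ) : ℂ) := by push_cast; ring
    rw [h2, Complex.dist_eq, ← Complex.ofReal_sub, Complex.norm_real, Real.norm_eq_abs] at hN
    have h3 := (abs_lt.1 hN).2
    have h4 := hRi j
    have h5 : (∑ m ∈ range N, ‖R j (x + m • β)‖) / N ≤ ε + δ / 4 := by linarith
    rwa [div_le_iff₀ hNpos] at h5
  have hevL : ∀ᶠ N : ℕ in atTop, ∀ j ∈ range L,
      ∑ m ∈ range N, ‖R j (x + m • β)‖ ≤ (ε + δ / 4) * N := by
    rw [Filter.eventually_all_finset]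
    exact fun j _ => hev j
  obtain ⟨N₂, hN₂⟩ := exists_nat_ge (2 * L * Bd / (δ / 2))
  filter_upwards [hevL, eventually_ge_atTop (max N₀ N₂)] with N hN hNmax
  have hNN0 : N₀ ≤ N := (le_max_left _ _).trans hNmax
  have hNN2 : 2 * L * Bd ≤ δ / 2 * N := by
    have h1 : (N₂ : ℝ) ≤ N := by exact_mod_cast (le_max_right _ _).trans hNmax
    have h2 := hN₂.trans h1
    rw [div_le_iff₀ (by positivity)] at h2
    linarith
  have hLpos : (0 : ℝ) < L := by rw [hL]; positivity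
  have hcount := ptb_count
    (fun n => ((ArithmeticFunction.moebius n : ℤ) : ℂ) * ff β φ b u x n) Bd (fun n => by
      rw [norm_mul]
      exact (mul_le_of_le_one_left (norm_nonneg _) (ptb_mu _)).trans
        (ff_norm β φ b hφ.2 u x n Bd hBd hu)) N L
  have hmain : ∑ m ∈ range N, ‖∑ j ∈ range L,
      ((ArithmeticFunction.moebius (m + j) : ℤ) : ℂ) * ff β φ b u x (m + j)‖ ≤
      L * ((ε + δ / 4) * N) + δ / 4 * (L * N) := by
    have h1 : ∑ m ∈ range N, ‖∑ j ∈ range L,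
        ((ArithmeticFunction.moebius (m + j) : ℤ) : ℂ) * ff β φ b u x (m + j)‖ ≤
        ∑ m ∈ range N, (∑ j ∈ range L, ‖R j (x + m • β)‖ + ∑ k ∈ range K, G k *
          ‖∑ j ∈ range L, ((ArithmeticFunction.moebius (m + j) : ℤ) : ℂ) *
            (conj (z k)) ^ j‖) := by
      refine Finset.sum_le_sum fun m _ => ?_
      refine (ptb_point β φ b u x K z g hφ.2 hu m L).trans ?_
      rw [hR]
      exact add_le_add le_rfl (Finset.sum_le_sum fun k _ =>
        mul_le_mul_of_nonneg_right (hG k _) (norm_nonneg _))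
    refine h1.trans ?_
    rw [Finset.sum_add_distrib, Finset.sum_comm (s := range N) (t := range L),
      Finset.sum_comm (s := range N) (t := range K)]
    refine add_le_add ?_ ?_
    · refine (Finset.sum_le_sum hN).trans (le_of_eq ?_)
      rw [Finset.sum_const, Finset.card_range, nsmul_eq_mul]
    · have h2 : ∀ k ∈ range K, ∑ m ∈ range N, G k *
          ‖∑ j ∈ range L, ((ArithmeticFunction.moebius (m + j) : ℤ) : ℂ) *
            (conj (z k)) ^ j‖ ≤ G k * (δ / (4 * (1 + Gs)) * L * N) := by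
        intro k _
        rw [← Finset.mul_sum]
        refine mul_le_mul_of_nonneg_left ?_ (hG0 k)
        refine hN₀ N hNN0 (fun j => (conj (z k)) ^ j) fun j => ?_
        rw [norm_pow, RCLike.norm_conj, (hzg k).1, one_pow]
      refine (Finset.sum_le_sum h2).trans ?_
      rw [← Finset.sum_mul, ← hGs]
      have h3 : Gs * (δ / (4 * (1 + Gs)) * L * N) = (Gs / (1 + Gs)) * (δ / 4 * (L * N)) := by
        field_simp
      rw [h3]
      refine mul_le_of_le_one_left (by positivity) ?_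
      rw [div_le_one (by positivity)]
      linarith
  have hfin : (L : ℝ) * ‖MS (ff β φ b u x) N‖ ≤ L * ((ε + δ) * N) := by
    unfold MS
    refine hcount.trans ?_
    have h1 : (L : ℝ) * (2 * L * Bd) ≤ L * (δ / 2 * N) :=
      mul_le_mul_of_nonneg_left hNN2 hLpos.le
    linarith
  exact le_of_mul_le_mul_left hfin hLpos

end Pool.Agent.Helper53.AZ
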