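import Pool.Agent.Helper16.AZ.Stmts

/-!
PTC: the random part (MP_7a8f48_an).
-/

namespace Pool.Agent.Helper53.AZ

open Finset Filter MeasureTheory Topology
open scoped ComplexConjugate InnerProductSpace
open Pool.Agent.Helper16.AZ
open Pool.Agent.Helper16.MD (MS PB Am RW Rich)

theorem PTC (hkt : ST_KT1) (hgam : ST_GAM) (hexv : ST_EXV) (hfum : ST_FUM) (hasy : ST_ASY)
    (hw : Pool.Agent.Helper16.MD.ST_WND) : ST_PTC := by
  intro r d β φ c u x η Cn hβ hφ hLM hc hc1 hu hη hCn hyp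
  by_contra hcon
  have hfreq : ∃ᶠ N : ℕ in atTop, η * N ≤ ‖MS (ff β φ c u x) N‖ := by
    rw [Filter.not_eventually] at hcon
    exact hcon.mono fun N hN => le_of_lt (not_le.1 hN)
  obtain ⟨K, hK2, hK⟩ := hw (64 / η ^ 2)
  obtain ⟨I₀, hI₀⟩ := hasy r d β φ c Cn ((η / 32) ^ 4 / 4) hφ hLM hc hc1 (by positivity)
  obtain ⟨I₁, hI₁⟩ := eventually_atTop.1 hyp
  obtain ⟨I₂, hI₂⟩ := pow_unbounded_of_one_lt (24 / η) (one_lt_two : (1 : ℝ) < 2)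
  obtain ⟨I, hI⟩ : ∃ I : ℕ, I = I₀ + I₁ + I₂ + 1 := ⟨_, rfl⟩
  have hmem : ∀ i ∈ RW 1 I K, I ≤ i ∧ Rich 1 i := by
    intro i hi
    unfold RW at hi
    rw [Finset.mem_filter, Finset.mem_Ico] at hi
    exact ⟨hi.1.1, hi.2⟩
  have h24 : ∀ i ∈ RW 1 I K, 24 / η ≤ (2 : ℝ) ^ i := by
    intro i hi
    have h1 : I ≤ i := (hmem i hi).1
    exact hI₂.le.trans (pow_le_pow_right₀ one_le_two (by omega))
  have hAm : 64 / η ^ 2 ≤ Am 1 (RW 1 I K) :=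
    hK I 1 (by omega) le_rfl (Nat.one_le_two_pow)
  obtain ⟨i, hiR, hΓ⟩ := hkt η (RW 1 I K) (ff β φ c u x) hη
    (fun n => ff_norm β φ c hφ.2 u x n 1 hc1 hu) h24 hAm hfreq
  obtain ⟨hIi, hrich⟩ := hmem i hiR
  obtain ⟨m, δ, hδ, hmδ, hmod⟩ := hI₀ i (by omega)
  have hyp2 := hI₁ i (by omega) hrich
  obtain ⟨H, hH⟩ : ∃ H : ℕ, H = Cn * 2 ^ i := ⟨_, rfl⟩
  have hH1 : 1 ≤ H := by
    rw [hH]
    exact Nat.one_le_iff_ne_zero.2 (by positivity)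
  have hHc : (Cn : ℝ) * 2 ^ i = (H : ℝ) := by rw [hH]; push_cast; ring
  rw [hHc, ← hH] at hyp2
  rw [← hH] at hmod
  have hΓ1 := hΓ (fun p p' => Real.sqrt (GG β φ c x H p p')) (fun p _ p' _ =>
    ⟨Real.sqrt_nonneg _, (hgam r d β φ c u x H p p' hβ hφ hc hc1 hu hH1).2⟩)
  have hGG : ∀ p p', 0 ≤ GG β φ c x H p p' := fun p p' =>
    (hgam r d β φ c u x H p p' hβ hφ hc hc1 hu hH1).1
  -- Cauchy-Schwarz
  obtain ⟨b, hb⟩ : ∃ b : ℝ, b = ((PB 1 i).card : ℝ) := ⟨_, rfl⟩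
  have hb0 : 0 < b := by
    rw [hb]
    have h1 : 0 < (PB 1 i).card := by
      rcases Nat.eq_zero_or_pos (PB 1 i).card with h0 | h0
      · exfalso
        unfold Rich at hrich
        rw [h0, mul_zero] at hrich
        exact absurd hrich (by simp)
      · exact h0
    exact_mod_cast h1
  obtain ⟨S, hS⟩ : ∃ S : ℝ, S = ∑ p ∈ PB 1 i, ∑ p' ∈ PB 1 i, GG β φ c x H p p' := ⟨_, rfl⟩
  have hCS : (∑ p ∈ PB 1 i, ∑ p' ∈ PB 1 i, Real.sqrt (GG β φ c x H p p')) ^ 2 ≤ b ^ 2 * S := by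
    have h1 := sq_sum_le_card_mul_sum_sq (s := PB 1 i ×ˢ PB 1 i)
      (f := fun q : ℕ × ℕ => Real.sqrt (GG β φ c x H q.1 q.2))
    rw [Finset.sum_product, Finset.sum_product, Finset.card_product] at h1
    have h2 : ∑ p ∈ PB 1 i, ∑ p' ∈ PB 1 i, Real.sqrt (GG β φ c x H p p') ^ 2 = S := by
      rw [hS]
      exact Finset.sum_congr rfl fun p _ => Finset.sum_congr rfl fun p' _ =>
        Real.sq_sqrt (hGG p p')
    simp only [] at h1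
    rw [h2] at h1
    refine h1.trans (le_of_eq ?_)
    push_cast
    rw [hb]
    ring
  rw [← hb] at hΓ1
  have hlow : (η / 32) ^ 4 * b ^ 2 ≤ S := by
    have h1 : ((η / 32) ^ 2 * b ^ 2) ^ 2 ≤ b ^ 2 * S :=
      (pow_le_pow_left₀ (by positivity) hΓ1 2).trans hCS
    have h2 : b ^ 2 * ((η / 32) ^ 4 * b ^ 2) ≤ b ^ 2 * S := by
      refine le_trans (le_of_eq ?_) h1
      ring
    exact le_of_mul_le_mul_left h2 (by positivity)
  -- upper bound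
  have hint : ∀ h ∈ range H, ∀ h' ∈ range H,
      ∫ θ, ‖∑ p ∈ PB 1 i, EE β φ c (p * h) (p * h') (x + p • θ)‖ ^ 2 ∂(mm r) ≤
      b * ∑ p ∈ PB 1 i, ‖∫ θ, EE β φ c (p * h) (p * h') θ ∂(mm r)‖ ^ 2 +
        (η / 32) ^ 4 / 4 * b ^ 2 := by
    intro h hh h' hh'
    rw [Finset.mem_range] at hh hh'
    have h1 := hfum r i m x (fun p => EE β φ c (p * h) (p * h')) δ (by omega) hrich
      (fun p _ => ⟨EE_continuous β φ c hφ.1 hc _ _, EE_norm β φ c hφ.2 hc1 _ _⟩) hδ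
      (fun p hp => hmod p hp h hh h' hh')
    rw [← hb] at h1
    have h2 : ‖∑ p ∈ PB 1 i, ∫ θ, EE β φ c (p * h) (p * h') θ ∂(mm r)‖ ^ 2 ≤
        b * ∑ p ∈ PB 1 i, ‖∫ θ, EE β φ c (p * h) (p * h') θ ∂(mm r)‖ ^ 2 := by
      have h3 : ‖∑ p ∈ PB 1 i, ∫ θ, EE β φ c (p * h) (p * h') θ ∂(mm r)‖ ^ 2 ≤
          (∑ p ∈ PB 1 i, ‖∫ θ, EE β φ c (p * h) (p * h') θ ∂(mm r)‖) ^ 2 :=
        pow_le_pow_left₀ (norm_nonneg _) (norm_sum_le _ _) 2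
      refine h3.trans ?_
      rw [hb]
      exact sq_sum_le_card_mul_sum_sq
    have h4 : (8 * ((i : ℝ) + 1 + m) / 2 ^ i + 2 * r * δ ^ 2) * b ^ 2 ≤
        (η / 32) ^ 4 / 4 * b ^ 2 := mul_le_mul_of_nonneg_right hmδ (by positivity)
    linarith
  have hHpos : (0 : ℝ) < (H : ℝ) := by exact_mod_cast hH1
  have hup : S ≤ 3 / 4 * ((η / 32) ^ 4 * b ^ 2) := by
    rw [hS, hexv r d β φ c x H (PB 1 i) hφ hc, div_le_iff₀ (by positivity)]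
    have h1 : ∑ h ∈ range H, ∑ h' ∈ range H,
        ∫ θ, ‖∑ p ∈ PB 1 i, EE β φ c (p * h) (p * h') (x + p • θ)‖ ^ 2 ∂(mm r) ≤
        ∑ h ∈ range H, ∑ h' ∈ range H,
        (b * ∑ p ∈ PB 1 i, ‖∫ θ, EE β φ c (p * h) (p * h') θ ∂(mm r)‖ ^ 2 +
          (η / 32) ^ 4 / 4 * b ^ 2) :=
      Finset.sum_le_sum fun h hh => Finset.sum_le_sum fun h' hh' => hint h hh h' hh'
    refine h1.trans ?_
    have h2 : ∑ h ∈ range H, ∑ h' ∈ range H,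
        (b * ∑ p ∈ PB 1 i, ‖∫ θ, EE β φ c (p * h) (p * h') θ ∂(mm r)‖ ^ 2 +
          (η / 32) ^ 4 / 4 * b ^ 2) =
        b * (∑ p ∈ PB 1 i, ∑ h ∈ range H, ∑ h' ∈ range H,
          ‖∫ θ, EE β φ c (p * h) (p * h') θ ∂(mm r)‖ ^ 2) +
          (H : ℝ) ^ 2 * ((η / 32) ^ 4 / 4 * b ^ 2) := by
      have h3 : ∑ p ∈ PB 1 i, ∑ h ∈ range H, ∑ h' ∈ range H,
          ‖∫ θ, EE β φ c (p * h) (p * h') θ ∂(mm r)‖ ^ 2 =
          ∑ h ∈ range H, ∑ h' ∈ range H, ∑ p ∈ PB 1 i,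
          ‖∫ θ, EE β φ c (p * h) (p * h') θ ∂(mm r)‖ ^ 2 := by
        rw [Finset.sum_comm]
        exact Finset.sum_congr rfl fun h _ => Finset.sum_comm
      rw [h3, Finset.mul_sum]
      simp only [Finset.mul_sum, Finset.sum_add_distrib, Finset.sum_const, Finset.card_range,
        nsmul_eq_mul]
      ring
    rw [h2]
    rw [← hb] at hyp2
    have h5 := mul_le_mul_of_nonneg_left hyp2 hb0.le
    nlinarith [h5]
  have hpos : 0 < (η / 32) ^ 4 * b ^ 2 := by positivity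
  linarith

end Pool.Agent.Helper53.AZ
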